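import Pool.Agent.Helper79.GS.St1

/-!
# Module BMW of project GS (MP_c2d095_lc): the two forms of the game agree
-/

set_option autoImplicit false

namespace Pool.Agent.Helper97.GS

open Pool.Agent.Helper79.GS Pool.Agent.Helper19.SK

private theorem mw_iff {P : Type} [Finite P] (A : Arena P) (H : Set P) (ps c : Bool) (b : P) :
    MW A H ps c b ↔ (ps = true ∧ ahead A c b) ∨ (ps = false ∧ ¬ MW A H true (!c) b) ∨
      ∃ b', A.mv c b b' ∧ b' ∉ H ∧ ¬ MW A (insert b' H) false (!c) b' := by
  conv_lhs => rw [MW]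
  simp only [exists_prop]

private theorem bt_iff {P : Type} (A : Arena P) (H : Set P) (ps : Bool) (b : P) :
    BWin A H ps true b ↔ (ps = true ∧ 0 < A.s b) ∨ (ps = false ∧ BWin A H true false b) ∨
      ∃ b', A.mv true b b' ∧ b' ∉ H ∧ BWin A (insert b' H) false false b' := by
  constructor
  · intro h
    cases h with
    | stop _ _ h => exact Or.inl ⟨rfl, h⟩
    | pass _ _ h => exact Or.inr (Or.inl ⟨rfl, h⟩)
    | move _ _ _ b' h1 h2 h3 => exact Or.inr (Or.inr ⟨b', h1, h2, h3⟩)
  · rintro (⟨rfl, h⟩ | ⟨rfl, h⟩ | ⟨b', h1, h2, h3⟩)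
    · exact BWin.stop H b h
    · exact BWin.pass H b h
    · exact BWin.move H ps b b' h1 h2 h3

private theorem bf_iff {P : Type} (A : Arena P) (H : Set P) (ps : Bool) (b : P) :
    BWin A H ps false b ↔ (ps = true → 0 < A.s b) ∧ (ps = false → BWin A H true true b) ∧
      ∀ b', A.mv false b b' → b' ∉ H → BWin A (insert b' H) false true b' := by
  constructor
  · intro h
    cases h with
    | white _ _ _ h1 h2 h3 => exact ⟨h1, h2, h3⟩
  · rintro ⟨h1, h2, h3⟩
    exact BWin.white H ps b h1 h2 h3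

private theorem insert_lt {P : Type} [Finite P] (H : Set P) (b : P) (hb : b ∉ H) :
    ((insert b H)ᶜ).ncard < (Hᶜ).ncard := by
  refine Set.ncard_lt_ncard ?_ (Set.toFinite _)
  exact ⟨fun x hx hxH => hx (Or.inr hxH), fun hcon => hcon (show b ∈ Hᶜ from hb) (Or.inl rfl)⟩

private theorem main {P : Type} [Finite P] (A : Arena P) : ∀ n : ℕ, ∀ (H : Set P) (ps : Bool) (b : P),
    2 * (Hᶜ).ncard + (if ps = true then 0 else 1) ≤ n →
    (BWin A H ps true b ↔ MW A H ps true b) ∧ (BWin A H ps false b ↔ ¬ MW A H ps false b) := by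
  intro n
  induction n using Nat.strong_induction_on with
  | _ n ih =>
    intro H ps b hn
    have h1 : ps = false →
        (BWin A H true true b ↔ MW A H true true b) ∧
        (BWin A H true false b ↔ ¬ MW A H true false b) := by
      rintro rfl
      have h0 : 2 * (Hᶜ).ncard + 1 ≤ n := by simpa using hn
      exact ih (2 * (Hᶜ).ncard) (by omega) H true b (by simp)
    have h2 : ∀ b', b' ∉ H →
        (BWin A (insert b' H) false true b' ↔ MW A (insert b' H) false true b') ∧
        (BWin A (insert b' H) false false b' ↔ ¬ MW A (insert b' H) false false b') := by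
      intro b' hb'
      have h0 := insert_lt H b' hb'
      exact ih (2 * ((insert b' H)ᶜ).ncard + 1) (by split_ifs at hn <;> omega) (insert b' H)
        false b' (by simp)
    constructor
    · rw [bt_iff, mw_iff]
      constructor
      · rintro (⟨h, h'⟩ | ⟨h, h'⟩ | ⟨b', ha, hb, hc⟩)
        · exact Or.inl ⟨h, by simpa [ahead] using h'⟩
        · exact Or.inr (Or.inl ⟨h, by simpa using (h1 h).2.1 h'⟩)
        · exact Or.inr (Or.inr ⟨b', ha, hb, by simpa using (h2 b' hb).2.1 hc⟩)
      · rintro (⟨h, h'⟩ | ⟨h, h'⟩ | ⟨b', ha, hb, hc⟩)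
        · exact Or.inl ⟨h, by simpa [ahead] using h'⟩
        · exact Or.inr (Or.inl ⟨h, (h1 h).2.2 (by simpa using h')⟩)
        · exact Or.inr (Or.inr ⟨b', ha, hb, (h2 b' hb).2.2 (by simpa using hc)⟩)
    · rw [bf_iff, mw_iff]
      constructor
      · rintro ⟨ha, hb, hc⟩ (⟨h, h'⟩ | ⟨h, h'⟩ | ⟨b', hd, he, hf⟩)
        · exact absurd (ha h) (by simpa [ahead] using h')
        · exact h' (by simpa using (h1 h).1.1 (hb h))
        · exact hf (by simpa using (h2 b' he).1.1 (hc b' hd he))
      · intro h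
        refine ⟨fun hps => ?_, fun hps => ?_, fun b' hd he => ?_⟩
        · by_contra h0
          exact h (Or.inl ⟨hps, by simpa [ahead] using h0⟩)
        · by_contra h0
          refine h (Or.inr (Or.inl ⟨hps, fun h3 => h0 ((h1 hps).1.2 (by simpa using h3))⟩))
        · by_contra h0
          exact h (Or.inr (Or.inr ⟨b', hd, he, fun h3 => h0 ((h2 b' he).1.2 (by simpa using h3))⟩))

theorem hBMW : StBMW := by
  intro P _ A H ps b
  exact main A _ H ps b le_rfl

end Pool.Agent.Helper97.GS
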