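import Pool.Agent.Helper79.GS.St5

/-!
# Module EB1 of project GS (MP_c2d095_lc): adjacency and touching are E2
-/

set_option autoImplicit false

namespace Pool.Agent.Helper97.GS

open Pool.Agent.Helper79.GS Pool.Agent.Helper19.SK Pool.Agent.Helper73.DC Finset

private theorem p_adj {n P Q : VF (Fin 5)} (hn : E2 n) (hP : E2 P) (hQ : E2 Q) :
    E2P (fun w v => adjN (n w v) (P w v) (Q w v)) :=
  e_or
    (e_and (e_eq (e_div hP hn) (e_div hQ hn))
      (e_or (e_eq (e_add (e_mod hP hn) (e_con 1)) (e_mod hQ hn))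
        (e_eq (e_add (e_mod hQ hn) (e_con 1)) (e_mod hP hn))))
    (e_and (e_eq (e_mod hP hn) (e_mod hQ hn))
      (e_or (e_eq (e_add (e_div hP hn) (e_con 1)) (e_div hQ hn))
        (e_eq (e_add (e_div hQ hn) (e_con 1)) (e_div hP hn))))

private theorem p_col {C : VF (Fin 5)} (hC : E2 C) : E2 (fun w v => colN (C w v)) := by
  have h := e_ite (p := fun w v => C w v = 1) (e_eq hC (e_con 1)) (e_con 1) (e_con 2)
  have e : (fun (w : List (Fin 5)) (v : ℕ → ℕ) => colN (C w v)) =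
      fun w v => @ite ℕ (C w v = 1) (Classical.propDecidable _) 1 2 := by
    funext w v
    by_cases h1 : C w v = 1
    · simp [colN, h1]
    · simp [colN, h1]
  rw [e]
  exact h

private theorem p_tch {N n U V X : VF (Fin 5)} (hN : E2 N) (hn : E2 n) (hU : E2 U) (hV : E2 V)
    (hX : E2 X) : E2P (fun w v => tchN (N w v) (n w v) (U w v) (V w v) (X w v)) := by
  refine e_all (p := fun w S v => dg 2 S (V w v) = 1 →
      (∀ p < n w v * n w v, ∀ q < n w v * n w v, dg 2 S p = 1 → adjN (n w v) p q →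
        dg 3 (U w v) p = dg 3 (U w v) q → dg 2 S q = 1) →
      ∃ p < n w v * n w v, ∃ q < n w v * n w v, dg 2 S p = 1 ∧ adjN (n w v) p q ∧
        dg 3 (U w v) q = X w v)
    (H := fun w v => pw (N w v) 2 (n w v * n w v)) ?_ (e_pw hN (e_con 2) (e_mul hn hn))
  refine e_imp (e_eq (e_dg (e_con 2) (e_get 0) (e_sh hV)) (e_con 1)) (e_imp ?_ ?_)
  · refine e_all (p := fun w p v => ∀ q < n w (fun i => v (i + 1)) * n w (fun i => v (i + 1)),
        dg 2 (v 0) p = 1 → adjN (n w (fun i => v (i + 1))) p q →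
        dg 3 (U w (fun i => v (i + 1))) p = dg 3 (U w (fun i => v (i + 1))) q → dg 2 (v 0) q = 1)
      (H := fun w v => n w (fun i => v (i + 1)) * n w (fun i => v (i + 1))) ?_
      (e_mul (e_sh hn) (e_sh hn))
    refine e_all (p := fun w q v =>
        dg 2 (v 1) (v 0) = 1 → adjN (n w (fun i => v (i + 1 + 1))) (v 0) q →
        dg 3 (U w (fun i => v (i + 1 + 1))) (v 0) = dg 3 (U w (fun i => v (i + 1 + 1))) q →
        dg 2 (v 1) q = 1)
      (H := fun w v => n w (fun i => v (i + 1 + 1)) * n w (fun i => v (i + 1 + 1))) ?_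
      (e_mul (e_sh (e_sh hn)) (e_sh (e_sh hn)))
    exact e_imp (e_eq (e_dg (e_con 2) (e_get 2) (e_get 1)) (e_con 1))
      (e_imp (p_adj (e_sh (e_sh (e_sh hn))) (e_get 1) (e_get 0))
        (e_imp (e_eq (e_dg (e_con 3) (e_sh (e_sh (e_sh hU))) (e_get 1))
          (e_dg (e_con 3) (e_sh (e_sh (e_sh hU))) (e_get 0)))
          (e_eq (e_dg (e_con 2) (e_get 2) (e_get 0)) (e_con 1))))
  · refine e_ex (p := fun w p v => ∃ q < n w (fun i => v (i + 1)) * n w (fun i => v (i + 1)),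
        dg 2 (v 0) p = 1 ∧ adjN (n w (fun i => v (i + 1))) p q ∧
        dg 3 (U w (fun i => v (i + 1))) q = X w (fun i => v (i + 1)))
      (H := fun w v => n w (fun i => v (i + 1)) * n w (fun i => v (i + 1))) ?_
      (e_mul (e_sh hn) (e_sh hn))
    refine e_ex (p := fun w q v =>
        dg 2 (v 1) (v 0) = 1 ∧ adjN (n w (fun i => v (i + 1 + 1))) (v 0) q ∧
        dg 3 (U w (fun i => v (i + 1 + 1))) q = X w (fun i => v (i + 1 + 1)))
      (H := fun w v => n w (fun i => v (i + 1 + 1)) * n w (fun i => v (i + 1 + 1))) ?_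
      (e_mul (e_sh (e_sh hn)) (e_sh (e_sh hn)))
    exact e_and (e_eq (e_dg (e_con 2) (e_get 2) (e_get 1)) (e_con 1))
      (e_and (p_adj (e_sh (e_sh (e_sh hn))) (e_get 1) (e_get 0))
        (e_eq (e_dg (e_con 3) (e_sh (e_sh (e_sh hU))) (e_get 0)) (e_sh (e_sh (e_sh hX)))))

theorem hEB1 : StEB1 := by
  refine ⟨?_, ?_, ?_⟩
  · intro n P Q hn hP hQ
    exact p_adj hn hP hQ
  · intro C hC
    exact p_col hC
  · intro N n U V X hN hn hU hV hX
    exact p_tch hN hn hU hV hX

end Pool.Agent.Helper97.GS
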